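import Mathlib

set_option autoImplicit false

/-!
# Muntz for even powers on `[0,K]`, from the exponential form of the theorem
-/

namespace Pool.Agent.K4H66.DM2.MU

open Set

noncomputable section

/-- The even monomials. -/
def mo (j : ℕ) : ℝ → ℝ := fun x => x ^ (2 * j)

/-- Their span over `S` and the constants. -/
def VV (S : Set ℕ) : Submodule ℝ (ℝ → ℝ) := Submodule.span ℝ (mo '' (S ∪ {0}))

/-- Uniformly approximable on `[0,K]`. -/
def Apx (S : Set ℕ) (K : ℝ) (h : ℝ → ℝ) : Prop :=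
  ∀ ε : ℝ, 0 < ε → ∃ v ∈ VV S, ∀ x ∈ Icc (0:ℝ) K, |h x - v x| ≤ ε

lemma mem_VV {S : Set ℕ} {j : ℕ} (h : j ∈ S ∨ j = 0) : mo j ∈ VV S :=
  Submodule.subset_span ⟨j, by simpa [or_comm] using h, rfl⟩

lemma apx_of_mem {S : Set ℕ} {K : ℝ} {h : ℝ → ℝ} (hh : h ∈ VV S) : Apx S K h := by
  intro ε hε
  exact ⟨h, hh, fun x _ => by simpa using hε.le⟩

lemma apx_add {S : Set ℕ} {K : ℝ} {h k : ℝ → ℝ} (hh : Apx S K h) (hk : Apx S K k) :
    Apx S K (fun x => h x + k x) := by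
  intro ε hε
  obtain ⟨v, hv, hv2⟩ := hh (ε / 2) (by positivity)
  obtain ⟨w, hw, hw2⟩ := hk (ε / 2) (by positivity)
  refine ⟨v + w, (VV S).add_mem hv hw, fun x hx => ?_⟩
  have h1 := hv2 x hx
  have h2 := hw2 x hx
  have h3 : h x + k x - (v + w) x = (h x - v x) + (k x - w x) := by
    simp only [Pi.add_apply]; ring
  rw [h3]
  exact (abs_add_le _ _).trans (by linarith)

lemma apx_smul {S : Set ℕ} {K : ℝ} {h : ℝ → ℝ} (c : ℝ) (hh : Apx S K h) :
    Apx S K (fun x => c * h x) := by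
  intro ε hε
  obtain ⟨v, hv, hv2⟩ := hh (ε / (|c| + 1)) (by positivity)
  refine ⟨c • v, (VV S).smul_mem c hv, fun x hx => ?_⟩
  have h1 := hv2 x hx
  have h3 : c * h x - (c • v) x = c * (h x - v x) := by
    simp only [Pi.smul_apply, smul_eq_mul]; ring
  rw [h3, abs_mul]
  have h4 : |c| * |h x - v x| ≤ (|c| + 1) * (ε / (|c| + 1)) :=
    mul_le_mul (by linarith) h1 (abs_nonneg _) (by positivity)
  rwa [mul_div_cancel₀ _ (by positivity)] at h4

lemma apx_sum {S : Set ℕ} {K : ℝ} {ι : Type} (s : Finset ι) (c : ι → ℝ) (h : ι → ℝ → ℝ)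
    (hh : ∀ i ∈ s, Apx S K (h i)) : Apx S K (fun x => ∑ i ∈ s, c i * h i x) := by
  classical
  induction s using Finset.induction_on with
  | empty =>
    simp only [Finset.sum_empty]
    exact apx_of_mem (VV S).zero_mem
  | insert a s ha ih =>
    simp only [Finset.sum_insert ha]
    exact apx_add (apx_smul (c a) (hh a (Finset.mem_insert_self _ _)))
      (ih (fun i hi => hh i (Finset.mem_insert_of_mem hi)))

/-- one monomial -/
lemma apx_mo {S : Set ℕ} (hS : ∀ j ∈ S, 1 ≤ j) {K : ℝ} (hK : 0 < K) {i : ℕ} (hi : 1 ≤ i)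
    (hm : ∀ ε : ℝ, 0 < ε → ∃ (t : Finset ℝ) (c : ℝ → ℝ), (∀ a ∈ t, a ∈ (fun j : ℕ => 2 * (j : ℝ)) '' S) ∧ ∀ y : ℝ, y ≤ 0 →
      |Real.exp ((2 * (i : ℝ)) * y) + ∑ a ∈ t, c a * Real.exp (a * y)| ≤ ε) :
    Apx S K (mo i) := by
  intro ε hε
  obtain ⟨t, c, ht, hc⟩ := hm (ε / K ^ (2 * i)) (by positivity)
  have hfl : ∀ a ∈ t, ⌊a / 2⌋₊ ∈ S ∧ a = 2 * ((⌊a / 2⌋₊ : ℕ) : ℝ) := by
    intro a ha
    obtain ⟨j, hj, hja⟩ := ht a ha
    have : ⌊a / 2⌋₊ = j := by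
      rw [← hja]
      simp
    rw [this]
    exact ⟨hj, hja.symm⟩
  refine ⟨-∑ a ∈ t, (c a * K ^ (2 * i) / K ^ (2 * ⌊a / 2⌋₊)) • mo ⌊a / 2⌋₊, ?_, ?_⟩
  · apply (VV S).neg_mem
    apply (VV S).sum_mem
    intro a ha
    exact (VV S).smul_mem _ (mem_VV (Or.inl (hfl a ha).1))
  intro x hx
  have h1 : mo i x - (-∑ a ∈ t, (c a * K ^ (2 * i) / K ^ (2 * ⌊a / 2⌋₊)) • mo ⌊a / 2⌋₊) x =
      K ^ (2 * i) * ((x / K) ^ (2 * i) + ∑ a ∈ t, c a * (x / K) ^ (2 * ⌊a / 2⌋₊)) := by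
    simp only [Pi.neg_apply, Finset.sum_apply, Pi.smul_apply, smul_eq_mul, mo, sub_neg_eq_add]
    rw [mul_add, Finset.mul_sum]
    congr 1
    · rw [div_pow, mul_div_cancel₀ _ (by positivity)]
    · apply Finset.sum_congr rfl
      intro a _
      rw [div_pow]
      field_simp
  rw [h1, abs_mul, abs_of_pos (by positivity : 0 < K ^ (2 * i))]
  have h2 : |(x / K) ^ (2 * i) + ∑ a ∈ t, c a * (x / K) ^ (2 * ⌊a / 2⌋₊)| ≤ ε / K ^ (2 * i) := by
    rcases eq_or_lt_of_le hx.1 with h0 | h0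
    · rw [← h0, zero_div, zero_pow (by omega)]
      have : ∑ a ∈ t, c a * (0:ℝ) ^ (2 * ⌊a / 2⌋₊) = 0 := by
        apply Finset.sum_eq_zero
        intro a ha
        have := hS _ (hfl a ha).1
        rw [zero_pow (by omega), mul_zero]
      rw [this]
      simp only [add_zero, abs_zero]
      positivity
    · have hz : 0 < x / K := div_pos h0 hK
      have hz1 : x / K ≤ 1 := (div_le_one hK).2 hx.2
      have h3 := hc (Real.log (x / K)) (Real.log_nonpos hz.le hz1)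
      have h4 : Real.exp ((2 * (i : ℝ)) * Real.log (x / K)) = (x / K) ^ (2 * i) := by
        rw [mul_comm, ← Real.rpow_def_of_pos hz, ← Real.rpow_natCast]
        push_cast
        rfl
      have h5 : ∑ a ∈ t, c a * Real.exp (a * Real.log (x / K)) = ∑ a ∈ t, c a * (x / K) ^ (2 * ⌊a / 2⌋₊) := by
        apply Finset.sum_congr rfl
        intro a ha
        have h6 : Real.exp (a * Real.log (x / K)) = (x / K) ^ (2 * ⌊a / 2⌋₊) := by
          rw [mul_comm, ← Real.rpow_def_of_pos hz, ← Real.rpow_natCast]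
          push_cast
          rw [← (hfl a ha).2]
        rw [h6]
      rwa [h4, h5] at h3
  have h7 := mul_le_mul_of_nonneg_left h2 (by positivity : 0 ≤ K ^ (2 * i))
  rwa [mul_div_cancel₀ _ (by positivity)] at h7

/-- the conclusion, given the approximation of each even monomial -/
lemma conclude {S : Set ℕ} {K : ℝ} (hK : 0 < K) (H : ∀ i : ℕ, Apx S K (mo i)) (g : ℝ → ℝ) (hg : Continuous g)
    (ε : ℝ) (hε : 0 < ε) :
    ∃ (s : Finset ℕ) (c : ℕ → ℝ), (∀ j ∈ s, j ∈ S ∨ j = 0) ∧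
    ∀ x ∈ Icc (0:ℝ) K, |g x - ∑ j ∈ s, c j * x ^ (2 * j)| ≤ ε := by
  obtain ⟨p, hp⟩ := exists_polynomial_near_of_continuousOn 0 (K ^ 2) (fun y => g (√y))
    ((hg.comp Real.continuous_sqrt).continuousOn) (ε / 2) (by positivity)
  have h1 : Apx S K (fun x => ∑ i ∈ p.support, p.coeff i * mo i x) := apx_sum _ _ _ (fun i _ => H i)
  obtain ⟨v, hv, hv2⟩ := h1 (ε / 2) (by positivity)
  obtain ⟨l, hl, hlv⟩ := (Finsupp.mem_span_image_iff_linearCombination ℝ).1 hv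
  refine ⟨l.support, l, ?_, ?_⟩
  · intro j hj
    have := (Finsupp.mem_supported ℝ l).1 hl hj
    simpa [or_comm] using this
  intro x hx
  have h2 := hv2 x hx
  have h3 : v x = ∑ j ∈ l.support, l j * x ^ (2 * j) := by
    rw [← hlv, Finsupp.linearCombination_apply, Finsupp.sum]
    simp [mo]
  have h4 := hp (x ^ 2) ⟨by positivity, by nlinarith [hx.1, hx.2]⟩
  rw [Real.sqrt_sq hx.1] at h4
  have h5 : p.eval (x ^ 2) = ∑ i ∈ p.support, p.coeff i * mo i x := by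
    rw [Polynomial.eval_eq_sum, Polynomial.sum]
    apply Finset.sum_congr rfl
    intro i _
    rw [mo, ← pow_mul]
  rw [h5] at h4
  rw [← h3]
  have h6 : g x - v x = -((∑ i ∈ p.support, p.coeff i * mo i x) - g x) +
      ((∑ i ∈ p.support, p.coeff i * mo i x) - v x) := by ring
  rw [h6]
  refine (abs_add_le _ _).trans ?_
  rw [abs_neg]
  linarith

/-- the real exponents -/
lemma sum_image {S : Set ℕ} (h : ¬ Summable (fun j : S => ((j : ℕ) : ℝ)⁻¹)) :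
    ¬ Summable (fun x : ((fun j : ℕ => 2 * (j : ℝ)) '' S) => (x : ℝ)⁻¹) := by
  intro hs
  apply h
  have hinj : InjOn (fun j : ℕ => 2 * (j : ℝ)) S := by
    intro a _ b _ hab
    simpa using hab
  have h1 : Summable (fun j : S => (2 * ((j : ℕ) : ℝ))⁻¹) := by
    have := (Equiv.Set.imageOfInjOn _ _ hinj).summable_iff (f := fun x : ((fun j : ℕ => 2 * (j : ℝ)) '' S) => (x : ℝ)⁻¹)
    exact this.2 hs
  have h2 : (fun j : S => ((j : ℕ) : ℝ)⁻¹) = fun j : S => 2 * (2 * ((j : ℕ) : ℝ))⁻¹ := by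
    ext j
    rw [mul_inv]
    ring
  rw [h2]
  exact h1.mul_left 2

lemma fin_image (S : Set ℕ) (R : ℝ) : (((fun j : ℕ => 2 * (j : ℝ)) '' S) ∩ Iic R).Finite := by
  apply Set.Finite.subset ((Set.finite_Iic ⌊R / 2⌋₊).image (fun j : ℕ => 2 * (j : ℝ)))
  rintro x ⟨⟨j, hj, rfl⟩, hx⟩
  refine ⟨j, ?_, rfl⟩
  simp only [mem_Iic] at hx ⊢
  apply Nat.le_floor
  linarith

end

end Pool.Agent.K4H66.DM2.MU
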